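import Mathlib
import Pool.Agent.Q236.CR.Stm5
import Pool.Agent.Q224.CR.Mtp

/-! Project CR (helper236), job WAP: aperiodic weights. -/

set_option autoImplicit false

namespace Pool.Agent.Q251.CR

open Finset Filter Polynomial
open Pool.Agent.H373R2.T7 (pz mem_pz bonf_ind)
open Pool.Agent.Q236.CR
open Pool.Agent.Q224.CR
open Pool.Agent.Q154.CR (dk_nonneg)

/-- the square sums over the residue classes -/
noncomputable def Vw (w : ℕ → ℝ) (K q : ℕ) : ℝ :=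
  ∑ a ∈ range q, (∑ n ∈ (Icc 1 K).filter (fun n => n ≡ a [MOD q]), w n) ^ 2

lemma Vw_nonneg (w : ℕ → ℝ) (K q : ℕ) : 0 ≤ Vw w K q := Finset.sum_nonneg fun _ _ => sq_nonneg _

open Classical in
lemma Vw_eq (W : Finset ℕ) (hWp : ∀ p ∈ W, p.Prime) (K : ℕ) (w : ℕ → ℝ) :
    ∑ n ∈ Icc 1 K, ∑ n' ∈ Icc 1 K, w n * w n' *
      (if ∀ p ∈ W, n ≡ n' [MOD p] then 1 else 0) = Vw w K (∏ p ∈ W, p) := by
  set q := ∏ p ∈ W, p with hq
  have hq0 : 0 < q := prod_pos_primes hWp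
  have h1 : ∀ n n' : ℕ, (if ∀ p ∈ W, n ≡ n' [MOD p] then (1 : ℝ) else 0) =
      ∑ a ∈ range q, (if n % q = a then 1 else 0) * (if n' % q = a then 1 else 0) := by
    intro n n'
    have hiff := modEq_prod W hWp n n'
    rw [Finset.sum_eq_single (n % q)]
    · rw [if_pos rfl, one_mul]
      by_cases h : n ≡ n' [MOD q]
      · have h' : n' % q = n % q := h.symm
        rw [if_pos (hiff.1 h), if_pos h']
      · have h' : ¬ n' % q = n % q := fun e => h e.symm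
        rw [if_neg (fun e => h (hiff.2 e)), if_neg h']
    · intro a _ ha
      rw [if_neg (fun e => ha e.symm), zero_mul]
    · intro h
      exact absurd (mem_range.2 (Nat.mod_lt _ hq0)) h
  have e1 : ∀ n ∈ Icc 1 K, ∀ n' ∈ Icc 1 K, w n * w n' *
      (if ∀ p ∈ W, n ≡ n' [MOD p] then (1 : ℝ) else 0) =
        ∑ a ∈ range q, (w n * (if n % q = a then 1 else 0)) *
          (w n' * (if n' % q = a then 1 else 0)) := by
    intro n _ n' _
    rw [h1, Finset.mul_sum]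
    exact Finset.sum_congr rfl fun a _ => by ring
  rw [Finset.sum_congr rfl fun n hn => Finset.sum_congr rfl fun n' hn' => e1 n hn n' hn',
    Finset.sum_congr rfl fun n _ => Finset.sum_comm, Finset.sum_comm]
  unfold Vw
  refine Finset.sum_congr rfl fun a ha => ?_
  rw [pow_two, Finset.sum_mul_sum]
  have hmod : ∀ n, n % q = a ↔ n ≡ a [MOD q] := fun n => by
    show n % q = a ↔ n % q = a % q
    rw [Nat.mod_eq_of_lt (mem_range.1 ha)]
  rw [Finset.sum_filter]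
  refine Finset.sum_congr rfl fun n _ => ?_
  by_cases h2 : n ≡ a [MOD q]
  · rw [if_pos h2, Finset.sum_filter]
    refine Finset.sum_congr rfl fun n' _ => ?_
    rw [if_pos ((hmod n).2 h2), mul_one]
    by_cases h3 : n' ≡ a [MOD q]
    · rw [if_pos h3, if_pos ((hmod n').2 h3), mul_one]
    · rw [if_neg h3, if_neg (fun h => h3 ((hmod n').1 h)), mul_zero, mul_zero]
  · rw [if_neg h2]
    refine Finset.sum_eq_zero fun n' _ => ?_
    rw [if_neg (fun h => h2 ((hmod n).1 h)), mul_zero, zero_mul]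

lemma Vw_small (w : ℕ → ℝ) (K q : ℕ) (β : ℝ)
    (h : ∀ a : ℕ, |∑ n ∈ (Icc 1 K).filter (fun n => n ≡ a [MOD q]), w n| ≤ β) :
    Vw w K q ≤ q * β ^ 2 := by
  unfold Vw
  calc _ ≤ ∑ _a ∈ range q, β ^ 2 := by
        refine Finset.sum_le_sum fun a _ => ?_
        rw [← sq_abs]
        exact pow_le_pow_left₀ (abs_nonneg _) (h a) 2
    _ = q * β ^ 2 := by rw [Finset.sum_const, card_range, nsmul_eq_mul]

lemma Vw_big (w : ℕ → ℝ) (hw : ∀ n, |w n| ≤ 1) (K q : ℕ) (hq : 1 ≤ q) :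
    Vw w K q ≤ (K / q + 1) * K := by
  have h1 : ∀ a, |∑ n ∈ (Icc 1 K).filter (fun n => n ≡ a [MOD q]), w n| ≤
      (((Icc 1 K).filter (fun n => n ≡ a [MOD q])).card : ℝ) := by
    intro a
    refine (abs_sum_le_sum_abs _ _).trans ?_
    refine (Finset.sum_le_sum fun n _ => hw n).trans ?_
    rw [Finset.sum_const, nsmul_eq_mul, mul_one]
  have h2 : ∑ a ∈ range q, (((Icc 1 K).filter (fun n => n ≡ a [MOD q])).card : ℝ) = K := by
    have h3 : (Icc 1 K).card = ∑ a ∈ range q, ((Icc 1 K).filter (fun n => n % q = a)).card :=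
      Finset.card_eq_sum_card_fiberwise (fun n _ => by
        rw [Finset.mem_coe, mem_range]
        exact Nat.mod_lt _ hq)
    rw [Nat.card_Icc, Nat.add_sub_cancel] at h3
    have h4 : ((∑ a ∈ range q, ((Icc 1 K).filter (fun n => n % q = a)).card : ℕ) : ℝ) = K := by
      rw [← h3]
    rw [← h4]
    push_cast
    refine Finset.sum_congr rfl fun a ha => ?_
    congr 2
    ext n
    simp only [mem_filter]
    have : n ≡ a [MOD q] ↔ n % q = a := by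
      show n % q = a % q ↔ n % q = a
      rw [Nat.mod_eq_of_lt (mem_range.1 ha)]
    rw [this]
  unfold Vw
  calc _ ≤ ∑ a ∈ range q, ((K : ℝ) / q + 1) *
        (((Icc 1 K).filter (fun n => n ≡ a [MOD q])).card : ℝ) := by
        refine Finset.sum_le_sum fun a _ => ?_
        rw [← sq_abs, pow_two]
        exact mul_le_mul ((h1 a).trans (class_card K q a)) (h1 a) (abs_nonneg _) (by positivity)
    _ = (K / q + 1) * K := by rw [← Finset.mul_sum, h2]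

lemma SV (k z K : ℕ) (hz : 1 ≤ z) (w : ℕ → ℝ) (B : ℝ) (hB : 0 ≤ B)
    (h : ∀ W ⊆ pz z, Vw w K (∏ p ∈ W, p) ≤ B) :
    ∑ W ∈ (pz z).powerset, (∏ p ∈ W, dk k p) * Vw w K (∏ p ∈ W, p) ≤
      (3 * (z : ℝ)) ^ (3 * k) * B := by
  have hpos : ∀ p ∈ pz z, 0 ≤ dk k p := fun p hp => dk_nonneg k p (mem_pz.1 hp).2.one_lt.le
  have h1 : ∑ W ∈ (pz z).powerset, (∏ p ∈ W, dk k p) * Vw w K (∏ p ∈ W, p) ≤
      (∏ p ∈ pz z, (1 + dk k p)) * B := by
    rw [Finset.prod_one_add, Finset.sum_mul]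
    refine Finset.sum_le_sum fun W hW => ?_
    rw [mem_powerset] at hW
    exact mul_le_mul_of_nonneg_left (h W hW) (Finset.prod_nonneg fun p hp => hpos p (hW hp))
  refine h1.trans (mul_le_mul_of_nonneg_right ?_ hB)
  have h2 := prod_dk k z hz
  have h3 : 1 ≤ ∏ p ∈ pz z, (1 + dk k p) := by
    have h4 : ∏ p ∈ pz z, (1 : ℝ) ≤ ∏ p ∈ pz z, (1 + dk k p) :=
      Finset.prod_le_prod (fun _ _ => zero_le_one) fun p hp => by linarith [hpos p hp]
    rwa [Finset.prod_const_one] at h4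
  nlinarith

section

variable {k : ℕ} (s : Fin k → ℕ) (G : Fin k → ℤ[X]) (c : (i : Fin k) → Fin (s i + 2) → ℤ)

open Classical in
/-- the pointwise bound -/
lemma ptw (w : ℕ → ℝ) (hw : ∀ n, |w n| ≤ 1) (z K r : ℕ) :
    |∑ n ∈ (Finset.Icc 1 K).filter (fun n : ℕ => ∀ p ∈ pz z, ¬ hit s G c p n), w n -
      ∑ x ∈ TT z r ×ˢ Icc 1 K, ((-1 : ℝ) ^ x.1.card * w x.2) * xi s G c x.1 x.2| ≤
        ∑ n ∈ Icc 1 K, ErP s G c (pz z) r n := by
  have h1 : ∑ n ∈ (Finset.Icc 1 K).filter (fun n : ℕ => ∀ p ∈ pz z, ¬ hit s G c p n), w n =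
      ∑ n ∈ Icc 1 K, w n * (if ∀ p ∈ pz z, ¬ hit s G c p n then (1 : ℝ) else 0) := by
    rw [Finset.sum_filter]
    refine Finset.sum_congr rfl fun n _ => ?_
    split_ifs <;> simp
  have h2 : ∑ x ∈ TT z r ×ˢ Icc 1 K, ((-1 : ℝ) ^ x.1.card * w x.2) * xi s G c x.1 x.2 =
      ∑ n ∈ Icc 1 K, w n * ∑ j ∈ range r, (-1 : ℝ) ^ j *
          ∑ T ∈ (pz z).powersetCard j, xi s G c T n := by
    rw [Finset.sum_product, Finset.sum_comm]
    refine Finset.sum_congr rfl fun n _ => ?_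
    rw [← sum_TT z r (fun T => xi s G c T n), Finset.mul_sum]
    refine Finset.sum_congr rfl fun T _ => by ring
  rw [h1, h2, ← sum_sub_distrib]
  refine (abs_sum_le_sum_abs _ _).trans ?_
  apply sum_le_sum
  intro n _
  have h := bonf_ind (fun p n => hit s G c p n) (pz z) r n
  rw [← mul_sub, abs_mul]
  calc |w n| * |_| ≤ 1 * |_| := mul_le_mul_of_nonneg_right (hw n) (abs_nonneg _)
    _ ≤ _ := by
      rw [one_mul]
      exact h

end

/-- the second moment of the main form -/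
lemma mom (k : ℕ) (s : Fin k → ℕ) (C : ℝ) (hC : 0 ≤ C)
    (hE' : ∀ (G : Fin k → ℤ[X]) (H : ℕ) (T T' : Finset ℕ)
      (n n' : ℕ), 1 ≤ H → (∀ p ∈ T ∪ T', p.Prime) → ∏ p ∈ T ∪ T', (p : ℝ) ≤ H →
      by classical exact |∑ c ∈ SB k s H, xi s G c T n * xi s G c T' n' - (SB k s H).card *
      ∏ p ∈ T ∪ T', (if p ∈ T ∧ p ∈ T' ∧ ¬ n ≡ n' [MOD p] then dk k p ^ 2 else dk k p)| ≤
    C * ((∏ p ∈ T ∪ T', (p : ℝ)) / H) * (SB k s H).card)
    (G : Fin k → ℤ[X]) (H z r K : ℕ) (w : ℕ → ℝ) (B : ℝ) (hB : 0 ≤ B) (hH : 1 ≤ H) (hz : 1 ≤ z)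
    (hzH : ((z : ℝ) + 1) ^ (2 * r) ≤ H) (hw : ∀ n, |w n| ≤ 1)
    (hV : ∀ W ⊆ pz z, Vw w K (∏ p ∈ W, p) ≤ B) :
    ∑ c ∈ SB k s H, (∑ x ∈ TT z r ×ˢ Icc 1 K, ((-1 : ℝ) ^ x.1.card * w x.2) *
      xi s G c x.1 x.2) ^ 2 ≤ (SB k s H).card * ((3 * (z : ℝ)) ^ (3 * k) *
        ((3 * (z : ℝ)) ^ (3 * k) * B) + C * (K : ℝ) ^ 2 * (((z : ℝ) + 1) ^ (4 * r) / H)) := by
  classical
  have hH0 : (0 : ℝ) < H := by exact_mod_cast hH
  have hz1 : (1 : ℝ) ≤ (z : ℝ) + 1 := by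
    have : (0 : ℝ) ≤ z := Nat.cast_nonneg z
    linarith
  set P := pz z with hPd
  have hP : ∀ p ∈ P, p.Prime := fun p hp => (mem_pz.mp hp).2
  set N : ℝ := ((SB k s H).card : ℝ) with hN
  have hN0 : 0 ≤ N := Nat.cast_nonneg _
  set ε : Finset ℕ → ℝ := fun T => (-1 : ℝ) ^ T.card with hε
  set I := Icc 1 K with hI
  set 𝒯 := TT z r with h𝒯
  have h𝒯P : ∀ T ∈ 𝒯, T ⊆ P := fun T hT => (mem_TT.1 hT).1
  set η : ℝ := N * (C * (((z : ℝ) + 1) ^ (2 * r) / H)) with hη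
  have hprod : ∀ T ∈ 𝒯, ∀ T' ∈ 𝒯, ∏ p ∈ T ∪ T', (p : ℝ) ≤ ((z : ℝ) + 1) ^ (2 * r) := by
    intro T hT T' hT'
    have hT := mem_TT.1 hT
    have hT' := mem_TT.1 hT'
    calc ∏ p ∈ T ∪ T', (p : ℝ) ≤ ∏ _p ∈ T ∪ T', ((z : ℝ) + 1) := by
          apply Finset.prod_le_prod
          · intro p _
            exact Nat.cast_nonneg p
          · intro p hp
            have h1 : p ∈ pz z := by
              rw [Finset.mem_union] at hp
              exact hp.elim (fun h => hT.1 h) (fun h => hT'.1 h)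
            have h2 : (p : ℝ) ≤ z := by exact_mod_cast (mem_pz.mp h1).1
            linarith
      _ = ((z : ℝ) + 1) ^ (T ∪ T').card := by rw [Finset.prod_const]
      _ ≤ ((z : ℝ) + 1) ^ (2 * r) := by
        apply pow_le_pow_right₀ hz1
        have := Finset.card_union_le T T'
        omega
  have hquad := quad (SB k s H) (𝒯 ×ˢ I) (fun x => ε x.1 * w x.2) (fun c x => xi s G c x.1 x.2)
    (fun x y => ∏ p ∈ x.1 ∪ y.1, (if p ∈ x.1 ∧ p ∈ y.1 ∧ ¬ x.2 ≡ y.2 [MOD p] then dk k p ^ 2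
      else dk k p)) N η (by
    intro x hx y hy
    rw [mem_product] at hx hy
    have h1 := hE' G H x.1 y.1 x.2 y.2 hH (fun p hp => by
      rw [Finset.mem_union] at hp
      exact hp.elim (fun h => hP p (h𝒯P _ hx.1 h)) (fun h => hP p (h𝒯P _ hy.1 h)))
      ((hprod _ hx.1 _ hy.1).trans hzH)
    refine h1.trans ?_
    rw [hη, mul_comm]
    apply mul_le_mul_of_nonneg_left _ hN0
    apply mul_le_mul_of_nonneg_left _ hC
    exact div_le_div_of_nonneg_right (hprod _ hx.1 _ hy.1) hH0.le)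
  refine hquad.trans ?_
  have hform := main_form P 𝒯 h𝒯P I (dk k) (fun p hp => dk_nonneg k p (hP p hp).one_lt.le)
    (fun p hp => dk_le_one k p (hP p hp).one_lt.le) ε (fun T => by
      rw [hε]; simp) w
    (fun W => Vw w K (∏ p ∈ W, p)) (fun W _ => Vw_nonneg _ _ _) (fun W hW => by
      rw [mem_powerset] at hW
      have := Vw_eq W (fun p hp => hP p (hW hp)) K w
      rw [← this])
  have hSV := SV k z K hz w B hB hV
  have hnn : 0 ≤ ∑ W ∈ P.powerset, (∏ p ∈ W, dk k p) * Vw w K (∏ p ∈ W, p) :=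
    Finset.sum_nonneg fun W hW => mul_nonneg (Finset.prod_nonneg fun p hp =>
      dk_nonneg k p (hP p (mem_powerset.1 hW hp)).one_lt.le) (Vw_nonneg _ _ _)
  have hmain := hform.trans (mul_le_mul (prod_dk k z hz) hSV hnn (by positivity))
  have habs : ∑ x ∈ 𝒯 ×ˢ I, |ε x.1 * w x.2| ≤ ((z : ℝ) + 1) ^ r * K := by
    have e1 : ∑ x ∈ 𝒯 ×ˢ I, |ε x.1 * w x.2| = (𝒯.card : ℝ) * ∑ n ∈ I, |w n| := by
      rw [Finset.sum_product]
      have e2 : ∀ T ∈ 𝒯, ∑ n ∈ I, |ε T * w n| = ∑ n ∈ I, |w n| := by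
        intro T _
        refine Finset.sum_congr rfl fun n _ => ?_
        rw [abs_mul, hε]
        simp
      rw [Finset.sum_congr rfl e2, Finset.sum_const, nsmul_eq_mul]
    have e3 : ∑ n ∈ I, |w n| ≤ K := by
      refine (Finset.sum_le_sum fun n _ => hw n).trans ?_
      rw [Finset.sum_const, nsmul_eq_mul, mul_one, hI, Nat.card_Icc, Nat.add_sub_cancel]
    rw [e1]
    exact mul_le_mul (card_TT z r hz) e3
      (Finset.sum_nonneg fun _ _ => abs_nonneg _) (by positivity)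
  have habs0 : 0 ≤ ∑ x ∈ 𝒯 ×ˢ I, |ε x.1 * w x.2| := Finset.sum_nonneg fun _ _ => abs_nonneg _
  have hη0 : 0 ≤ η := by
    rw [hη]; positivity
  have herr : η * (∑ x ∈ 𝒯 ×ˢ I, |ε x.1 * w x.2|) ^ 2 ≤
      N * (C * (K : ℝ) ^ 2 * (((z : ℝ) + 1) ^ (4 * r) / H)) := by
    calc η * (∑ x ∈ 𝒯 ×ˢ I, |ε x.1 * w x.2|) ^ 2 ≤
        η * (((z : ℝ) + 1) ^ r * K) ^ 2 :=
          mul_le_mul_of_nonneg_left (pow_le_pow_left₀ habs0 habs 2) hη0
      _ = _ := by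
          rw [hη]
          have e1 : (((z : ℝ) + 1) ^ (4 * r)) = (((z : ℝ) + 1) ^ (2 * r)) *
              (((z : ℝ) + 1) ^ r) ^ 2 := by
            rw [← pow_mul, ← pow_add]
            congr 1
            ring
          rw [e1]
          ring
  have h1 := mul_le_mul_of_nonneg_left hmain hN0
  calc _ ≤ N * ((3 * (z : ℝ)) ^ (3 * k) * ((3 * (z : ℝ)) ^ (3 * k) * B)) +
        N * (C * (K : ℝ) ^ 2 * (((z : ℝ) + 1) ^ (4 * r) / H)) :=
        add_le_add h1 herr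
    _ = _ := by ring

theorem wap : S_EQD → S_ER → S_WAP := by
  classical
  intro hE hR k s E U
  obtain ⟨C, hC, hE⟩ := hE k s
  obtain ⟨C', hC', hR⟩ := hR k s
  obtain ⟨H1, hpar⟩ := parP k E (U + 1) (C + C') (by positivity)
  set B0 : ℕ := 3 * k * E + 1 with hB0
  set C2 : ℕ := 2 * B0 + U + 1 with hC2
  set A' : ℕ := C2 + B0 + U + 1 with hA'
  have hlim : Tendsto (fun N : ℕ => Real.log (N : ℝ)) atTop atTop :=
    Real.tendsto_log_atTop.comp (tendsto_natCast_atTop_atTop (R := ℝ))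
  obtain ⟨H2, h8⟩ := Filter.eventually_atTop.1 (hlim.eventually_ge_atTop 10)
  refine ⟨A', C2, max (max H1 H2) 1, fun H hH G K w hK hKH hw hap => ?_⟩
  have g1 : H1 ≤ H := ((le_max_left _ _).trans (le_max_left _ _)).trans hH
  have g2 : H2 ≤ H := ((le_max_right _ _).trans (le_max_left _ _)).trans hH
  have hH1 : 1 ≤ H := (le_max_right _ _).trans hH
  have hL9 : (10 : ℝ) ≤ Real.log H := h8 H g2
  obtain ⟨hL, r, p1, p2, p3, p4⟩ := hpar H g1
  have hHr : (0 : ℝ) < H := by exact_mod_cast hH1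
  set L := Real.log H with hLd
  set z := ⌊L ^ E⌋₊ with hz
  have hL0 : 0 < L := by linarith
  have hz1 : 1 ≤ z := by
    rw [hz]; apply Nat.le_floor
    rw [Nat.cast_one]; exact one_le_pow₀ hL
  have hzr : (1 : ℝ) ≤ z := by exact_mod_cast hz1
  have hKpos : (0 : ℝ) < K := lt_of_lt_of_le (by positivity) hK
  have hK0 : (0 : ℝ) ≤ K := hKpos.le
  set N : ℝ := ((SB k s H).card : ℝ) with hN
  have hN0 : 0 ≤ N := Nat.cast_nonneg _
  -- the bound of the square sums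
  set B : ℝ := (K : ℝ) ^ 2 / L ^ C2 + (L ^ C2 * (K / L ^ A') ^ 2 + K) with hB
  have hBn : 0 ≤ B := by rw [hB]; positivity
  have hV : ∀ W ⊆ pz z, Vw w K (∏ p ∈ W, p) ≤ B := by
    intro W hW
    have hWp : ∀ p ∈ W, p.Prime := fun p hp => (mem_pz.1 (hW hp)).2
    have hq1 : 1 ≤ ∏ p ∈ W, p := prod_pos_primes hWp
    have hq0 : (0 : ℝ) < ((∏ p ∈ W, p : ℕ) : ℝ) := by exact_mod_cast hq1
    by_cases hq : ((∏ p ∈ W, p : ℕ) : ℝ) ≤ L ^ C2
    · have h1 := Vw_small w K (∏ p ∈ W, p) (K / L ^ A') (hap _ hq1 (hq.trans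
        (pow_le_pow_right₀ hL (by omega))))
      refine h1.trans ?_
      have h2 : ((∏ p ∈ W, p : ℕ) : ℝ) * (K / L ^ A') ^ 2 ≤ L ^ C2 * (K / L ^ A') ^ 2 :=
        mul_le_mul_of_nonneg_right hq (sq_nonneg _)
      have h3 : 0 ≤ (K : ℝ) ^ 2 / L ^ C2 := by positivity
      rw [hB]
      linarith
    · push Not at hq
      refine (Vw_big w hw K _ hq1).trans ?_
      have h2 : (K : ℝ) / ((∏ p ∈ W, p : ℕ) : ℝ) ≤ K / L ^ C2 :=
        div_le_div_of_nonneg_left hK0 (by positivity) hq.le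
      have h3 : 0 ≤ L ^ C2 * (K / L ^ A') ^ 2 := by positivity
      calc (K / ((∏ p ∈ W, p : ℕ) : ℝ) + 1) * (K : ℝ) ≤ (K / L ^ C2 + 1) * K := by
            gcongr
        _ = (K : ℝ) ^ 2 / L ^ C2 + K := by ring
        _ ≤ B := by rw [hB]; linarith
  have p1' : ((z : ℝ) + 1) ^ (2 * r) ≤ H := by
    refine le_trans ?_ p1
    apply pow_le_pow_right₀ (by linarith); omega
  have hm := mom k s C hC hE G H z r K w B hBn hH1 hz1 p1' hw hV
  -- the tails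
  have e1 : ∀ n : ℕ, ∑ c ∈ SB k s H, (ErP s G c (pz z) r n) ^ 2 ≤
      N * ((3 * (z : ℝ)) ^ (7 * k) * Real.exp (-(r : ℝ)) +
        C' * (((z : ℝ) + 1) ^ (4 * r) / H)) :=
    fun n => hR G H z r n hH1 hz1 p1'
  set X : ℝ := (3 * (z : ℝ)) ^ (7 * k) * Real.exp (-(r : ℝ)) +
        C' * (((z : ℝ) + 1) ^ (4 * r) / H) with hX
  have hX0 : 0 ≤ X := by rw [hX]; positivity
  have htail : ∑ c ∈ SB k s H, (∑ n ∈ Icc 1 K, ErP s G c (pz z) r n) ^ 2 ≤
      N * ((K : ℝ) ^ 2 * X) := by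
    have h1 : ∀ c ∈ SB k s H, (∑ n ∈ Icc 1 K, ErP s G c (pz z) r n) ^ 2 ≤
        K * ∑ n ∈ Icc 1 K, (ErP s G c (pz z) r n) ^ 2 := by
      intro c _
      have h2 := sq_sum_le_card_mul_sum_sq (s := Icc 1 K) (f := fun n => ErP s G c (pz z) r n)
      rw [Nat.card_Icc, Nat.add_sub_cancel] at h2
      exact h2
    refine (Finset.sum_le_sum h1).trans ?_
    rw [← Finset.mul_sum, Finset.sum_comm]
    calc (K : ℝ) * ∑ n ∈ Icc 1 K, ∑ c ∈ SB k s H, (ErP s G c (pz z) r n) ^ 2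
        ≤ K * ∑ _n ∈ Icc 1 K, N * X :=
          mul_le_mul_of_nonneg_left (Finset.sum_le_sum fun n _ => e1 n) hK0
      _ = N * ((K : ℝ) ^ 2 * X) := by
          rw [Finset.sum_const, Nat.card_Icc, Nat.add_sub_cancel, nsmul_eq_mul]
          ring
  have hpt : ∀ c ∈ SB k s H, (∑ n ∈ (Finset.Icc 1 K).filter (fun n : ℕ => ∀ p ∈ pz z,
      ¬ hit s G c p n), w n) ^ 2 ≤
      2 * (∑ x ∈ TT z r ×ˢ Icc 1 K, ((-1 : ℝ) ^ x.1.card * w x.2) * xi s G c x.1 x.2) ^ 2 +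
        2 * (∑ n ∈ Icc 1 K, ErP s G c (pz z) r n) ^ 2 := by
    intro c _
    have h1 := ptw s G c w hw z K r
    have h2 := abs_le.1 h1
    set S1 := ∑ n ∈ (Finset.Icc 1 K).filter (fun n : ℕ => ∀ p ∈ pz z, ¬ hit s G c p n), w n
    set M1 := ∑ x ∈ TT z r ×ˢ Icc 1 K, ((-1 : ℝ) ^ x.1.card * w x.2) * xi s G c x.1 x.2
    set E1 := ∑ n ∈ Icc 1 K, ErP s G c (pz z) r n
    have h3 : (S1 - M1) ^ 2 ≤ E1 ^ 2 := by
      rw [← sq_abs]
      exact pow_le_pow_left₀ (abs_nonneg _) h1 2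
    nlinarith [sq_nonneg (S1 - 2 * M1), sq_nonneg (S1 - M1 - M1)]
  refine (Finset.sum_le_sum hpt).trans ?_
  rw [Finset.sum_add_distrib, ← Finset.mul_sum, ← Finset.mul_sum]
  set Q := (3 * (z : ℝ)) ^ (3 * k) with hQ
  have hQ0 : 0 < Q := by rw [hQ]; positivity
  have hQL : Q ≤ L ^ B0 := by
    have : 54 * Q ≤ L ^ B0 := p2
    linarith
  set Y : ℝ := 1 / L ^ (U + 1) with hY
  have hY0 : 0 < Y := by rw [hY]; positivity
  set Wz : ℝ := ((z : ℝ) + 1) ^ (4 * (r + 1)) / H with hWz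
  have hWz0 : 0 ≤ Wz := by rw [hWz]; positivity
  have hW4 : ((z : ℝ) + 1) ^ (4 * r) / H ≤ Wz := by
    rw [hWz]
    apply div_le_div_of_nonneg_right _ hHr.le
    apply pow_le_pow_right₀ (by linarith); omega
  -- main terms
  have m1 : Q * (Q * B) ≤ 3 * ((K : ℝ) ^ 2 * Y) := by
    have h1 : Q * (Q * B) ≤ L ^ (2 * B0) * B := by
      calc Q * (Q * B) = (Q * Q) * B := by ring
        _ ≤ (L ^ B0 * L ^ B0) * B := by
            apply mul_le_mul_of_nonneg_right _ hBn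
            exact mul_le_mul hQL hQL hQ0.le (by positivity)
        _ = L ^ (2 * B0) * B := by rw [← pow_add]; congr 2; ring
    refine h1.trans ?_
    have a1 : L ^ (2 * B0) * ((K : ℝ) ^ 2 / L ^ C2) = (K : ℝ) ^ 2 * Y := by
      rw [hY, hC2, show 2 * B0 + U + 1 = 2 * B0 + (U + 1) by ring, pow_add]
      field_simp
    have a2 : L ^ (2 * B0) * (L ^ C2 * (K / L ^ A') ^ 2) ≤ (K : ℝ) ^ 2 * Y := by
      have e : L ^ (2 * B0) * (L ^ C2 * (K / L ^ A') ^ 2) =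
          (K : ℝ) ^ 2 * (L ^ (2 * B0 + C2) / L ^ (2 * A')) := by
        rw [div_pow, ← pow_mul, mul_comm A' 2, pow_add]
        ring
      rw [e]
      apply mul_le_mul_of_nonneg_left _ (sq_nonneg _)
      rw [hY, div_le_div_iff₀ (by positivity) (by positivity), one_mul, ← pow_add]
      exact pow_le_pow_right₀ hL (by omega)
    have a3 : L ^ (2 * B0) * (K : ℝ) ≤ (K : ℝ) ^ 2 * Y := by
      rw [hY, mul_one_div, le_div_iff₀ (by positivity)]
      calc L ^ (2 * B0) * (K : ℝ) * L ^ (U + 1) = K * L ^ C2 := by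
            rw [hC2, show 2 * B0 + U + 1 = 2 * B0 + (U + 1) by ring, pow_add]
            ring
        _ ≤ K * K := mul_le_mul_of_nonneg_left hK hK0
        _ = (K : ℝ) ^ 2 := by ring
    have e2 : L ^ (2 * B0) * B = L ^ (2 * B0) * ((K : ℝ) ^ 2 / L ^ C2) +
        (L ^ (2 * B0) * (L ^ C2 * (K / L ^ A') ^ 2) + L ^ (2 * B0) * (K : ℝ)) := by
      rw [hB, mul_add (L ^ (2 * B0)), mul_add (L ^ (2 * B0))]
    rw [e2]
    linarith
  have m2 : C * (K : ℝ) ^ 2 * (((z : ℝ) + 1) ^ (4 * r) / H) + (K : ℝ) ^ 2 * X ≤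
      (K : ℝ) ^ 2 * (Y + Y) := by
    have h1 : C * (((z : ℝ) + 1) ^ (4 * r) / H) + X ≤ Y + Y := by
      have h2 : (C + C') * (((z : ℝ) + 1) ^ (4 * r) / H) ≤ (C + C') * Wz :=
        mul_le_mul_of_nonneg_left hW4 (by positivity)
      have h3 : 0 ≤ (C + C') * Wz := by positivity
      have h4 : 0 ≤ (3 * (z : ℝ)) ^ (7 * k) * Real.exp (-(r : ℝ)) := by positivity
      rw [hX]
      have h5 : 3 * (C + C') * Wz ≤ Y := p4
      have h6 : 27 * ((3 * (z : ℝ)) ^ (7 * k) * Real.exp (-(r : ℝ))) ≤ Y := p3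
      nlinarith
    calc _ = (K : ℝ) ^ 2 * (C * (((z : ℝ) + 1) ^ (4 * r) / H) + X) := by ring
      _ ≤ _ := mul_le_mul_of_nonneg_left h1 (sq_nonneg _)
  have hfin : 2 * (Q * (Q * B) + C * (K : ℝ) ^ 2 * (((z : ℝ) + 1) ^ (4 * r) / H)) +
      2 * ((K : ℝ) ^ 2 * X) ≤ (K : ℝ) ^ 2 / L ^ U := by
    have h1 : (K : ℝ) ^ 2 / L ^ U = L * ((K : ℝ) ^ 2 * Y) := by
      rw [hY]
      field_simp
      ring
    rw [h1]
    have h2 : 0 ≤ (K : ℝ) ^ 2 * Y := by positivity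
    have h3 : 10 * ((K : ℝ) ^ 2 * Y) ≤ L * ((K : ℝ) ^ 2 * Y) :=
      mul_le_mul_of_nonneg_right hL9 h2
    linarith
  calc 2 * ∑ c ∈ SB k s H, (∑ x ∈ TT z r ×ˢ Icc 1 K, ((-1 : ℝ) ^ x.1.card * w x.2) *
        xi s G c x.1 x.2) ^ 2 + 2 * ∑ c ∈ SB k s H, (∑ n ∈ Icc 1 K, ErP s G c (pz z) r n) ^ 2
      ≤ 2 * (N * (Q * (Q * B) + C * (K : ℝ) ^ 2 * (((z : ℝ) + 1) ^ (4 * r) / H))) +
        2 * (N * ((K : ℝ) ^ 2 * X)) := by linarith
    _ = N * (2 * (Q * (Q * B) + C * (K : ℝ) ^ 2 * (((z : ℝ) + 1) ^ (4 * r) / H)) +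
      2 * ((K : ℝ) ^ 2 * X)) := by ring
    _ ≤ N * ((K : ℝ) ^ 2 / L ^ U) := mul_le_mul_of_nonneg_left hfin hN0

end Pool.Agent.Q251.CR
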